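import Pool.Agent.Results.MP_3550b5_nt.MarkedIntegralPoints
import Pool.Agent.Results.MP_3550b5_nt.RegulatorsInFamilies
import Pool.Agent.V35.WB

/-!
# Schneider's conjecture in windows of parameters around almost every direction, for all primes up to a power

Let `F` be a family of elliptic curves over `ℤ[t₁, …, t_d]` with `r ≥ 1` sections whose height pairing `F.K` is
nondegenerate (starting file `RegulatorsInFamilies`), `v_n ≥ 1` a sequence of exponent of convergence at most `τ`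
(`0` for `v_n = x ^ n`), `σ ≥ 0` and `θ < 1`. For all directions `α ∈ ℝ^d` outside a set of Hausdorff dimension at most
`(d - 1/r + 5 σ + τ) / (1 - θ)`, which is a null set if `θ < (1/r - 5 σ - τ) / d`, the following holds for all large `n`: for
ALL marked members `w` of the family with `|w - v_n α| ≤ v_n ^ θ` and for ALL primes `5 ≤ p ≤ |w| ^ σ` of good ordinary
reduction the `p`-adic regulator of the `r` points is not zero, and Schneider's conjecture at `p` holds if the rank is `r`.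
An example is the family `lineFamily` of all curves `y² + a₁ x y + a₃ y = x (x - m) (x - n)`, with `r = 2`, `d = 4`. The
same is proved, with `r = 1` and `d = 3`, for all marked integral points `(x, y)` on all curves `y² = x³ + A x + B`
(starting file `MarkedIntegralPoints`), in windows of triples `w = (A, x, y)`: the `p`-adic height of the point is not
zero, and Schneider's conjecture at `p` holds if the rank is one.
-/

set_option autoImplicit false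

open MeasureTheory

namespace Pool.Agent.Results.MP_3550b5_nt.FamiliesInWindows

open Pool.Agent.Y732 Pool.Agent.V35.WM Pool.Agent.V35.WB

/-- the parameter `w` is marked, and the conclusion fails for some ordinary prime `5 ≤ p ≤ |w| ^ σ` -/
def Bad {d r : ℕ} (F : Family d r) (σ : ℝ) (w : Fin d → ℤ) : Prop :=
  F.Marked w ∧ ∃ p : ℕ, p.Prime ∧ 5 ≤ p ∧ (p : ℝ) ≤ ‖(vec w : Fin d → ℝ)‖ ^ σ ∧
    ∃ _ : Fact p.Prime, IsOrdinaryW p (F.curve w) ∧ ¬ F.NonDeg w p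

lemma sum_pow_four_le {x σ : ℝ} (hx : 1 ≤ x) (hσ : 0 ≤ σ) :
    (∑ p ∈ (Finset.Icc 5 ⌊x ^ σ⌋₊).filter Nat.Prime, (p : ℝ) ^ 4) ≤ x ^ (5 * σ) := by
  have hx0 : 0 < x := by linarith
  set S : Finset ℕ := (Finset.Icc 5 ⌊x ^ σ⌋₊).filter Nat.Prime with hS
  have h1 : ∀ p ∈ S, (p : ℝ) ^ 4 ≤ (x ^ σ) ^ 4 := by
    intro p hp
    rw [hS, Finset.mem_filter, Finset.mem_Icc] at hp
    have h2 : (p : ℝ) ≤ x ^ σ := (Nat.le_floor_iff (by positivity)).1 hp.1.2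
    exact pow_le_pow_left₀ (Nat.cast_nonneg _) h2 4
  refine (Finset.sum_le_card_nsmul S _ _ h1).trans ?_
  rw [nsmul_eq_mul]
  have h3 : (S.card : ℝ) ≤ x ^ σ := by
    have h4 : S.card ≤ ⌊x ^ σ⌋₊ := by
      refine (Finset.card_filter_le _ _).trans ?_
      rw [Nat.card_Icc]
      omega
    exact le_trans (by exact_mod_cast h4) (Nat.floor_le (by positivity))
  calc (S.card : ℝ) * (x ^ σ) ^ 4 ≤ x ^ σ * (x ^ σ) ^ 4 := by gcongr
    _ = x ^ (5 * σ) := by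
        rw [← Real.rpow_natCast (x ^ σ) 4, ← Real.rpow_mul hx0.le, ← Real.rpow_add hx0]
        congr 1
        push_cast
        ring

lemma bad_count {d r : ℕ} (F : Family d r) (hd : 0 < d) (hr : 0 < r) (hK : F.K.det ≠ 0) {σ : ℝ} (hσ : 0 ≤ σ) :
    ∃ C : ℝ, 0 ≤ C ∧ ∀ H : ℕ, 1 ≤ H → ({c : Fin d → ℤ | (∀ i, |c i| ≤ (H : ℤ)) ∧ Bad F σ c}.ncard : ℝ) ≤
      C * (H : ℝ) ^ ((d : ℝ) - 1 / r + 5 * σ) := by
  classical
  have hd1 : (1 : ℝ) ≤ d := by exact_mod_cast hd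
  have hr1 : (1 : ℝ) ≤ r := by exact_mod_cast hr
  have hrinv : (1 : ℝ) / r ≤ 1 := by rw [div_le_one (by linarith)]; exact hr1
  have hrinv0 : (0 : ℝ) ≤ (1 : ℝ) / r := by positivity
  set A : ℝ := 2 ^ d * r * |(F.K.det : ℝ)| with hA
  have hA0 : 0 ≤ A := by positivity
  refine ⟨A * 3 ^ ((d : ℝ) - 1 / r), by positivity, fun H hH => ?_⟩
  have hH1 : (1 : ℝ) ≤ H := by exact_mod_cast hH
  have hH0 : (0 : ℝ) < H := by linarith
  set S : Finset ℕ := (Finset.Icc 5 ⌊(H : ℝ) ^ σ⌋₊).filter Nat.Prime with hS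
  have hSp : ∀ p ∈ S, p.Prime ∧ 5 ≤ p := by
    intro p hp
    rw [hS, Finset.mem_filter, Finset.mem_Icc] at hp
    exact ⟨hp.2, hp.1.1⟩
  have hmain := RegulatorsInFamilies.result.1 d r F hr hK S hSp (fun _ => -(H : ℤ)) (fun _ => 2 * H + 1) (2 * H + 1)
    (fun _ => le_rfl)
  set B := (Fintype.piFinset fun l : Fin d => Finset.Ico (-(H : ℤ)) (-(H : ℤ) + ((2 * H + 1 : ℕ) : ℤ))).filter
    (fun v => F.Marked v ∧ ∃ p ∈ S, ∃ _ : Fact p.Prime, IsOrdinaryW p (F.curve v) ∧ ¬ F.NonDeg v p) with hB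
  have hsub : {c : Fin d → ℤ | (∀ i, |c i| ≤ (H : ℤ)) ∧ Bad F σ c} ⊆ (B : Set (Fin d → ℤ)) := by
    rintro c ⟨hc, hm, p, hp, hp5, hpσ, hf, ho, hn⟩
    rw [Finset.mem_coe, hB, Finset.mem_filter, Fintype.mem_piFinset]
    refine ⟨fun l => ?_, hm, p, ?_, hf, ho, hn⟩
    · have := abs_le.1 (hc l)
      rw [Finset.mem_Ico]
      push_cast
      constructor <;> omega
    · rw [hS, Finset.mem_filter, Finset.mem_Icc]
      refine ⟨⟨hp5, Nat.le_floor (hpσ.trans ?_)⟩, hp⟩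
      refine Real.rpow_le_rpow (norm_nonneg _) ?_ hσ
      rw [pi_norm_le_iff_of_nonneg hH0.le]
      intro i
      have h1 : ((|c i| : ℤ) : ℝ) ≤ ((H : ℤ) : ℝ) := by exact_mod_cast hc i
      rw [vec, Real.norm_eq_abs, ← Int.cast_abs]
      simpa using h1
  have hcard : ({c : Fin d → ℤ | (∀ i, |c i| ≤ (H : ℤ)) ∧ Bad F σ c}.ncard : ℝ) ≤ (B.card : ℝ) := by
    have := Set.ncard_le_ncard hsub (Finset.finite_toSet B)
    rw [Set.ncard_coe_finset] at this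
    exact_mod_cast this
  have hsum := sum_pow_four_le hH1 hσ
  rw [← hS] at hsum
  have hN : ((2 * H + 1 : ℕ) : ℝ) = 2 * (H : ℝ) + 1 := by push_cast; ring
  have hprod : (∏ _l : Fin d, ((2 * H + 1 : ℕ) : ℝ)) = (2 * (H : ℝ) + 1) ^ (d : ℝ) := by
    rw [Finset.prod_const, Finset.card_univ, Fintype.card_fin, hN, Real.rpow_natCast]
  have hpos : 0 < (2 * (H : ℝ) + 1) := by linarith
  have hmain' : (B.card : ℝ) * (2 * (H : ℝ) + 1) ^ ((1 : ℝ) / r) ≤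
      A * (H : ℝ) ^ (5 * σ) * (2 * (H : ℝ) + 1) ^ (d : ℝ) := by
    have h1 : (B.card : ℝ) * ((2 * H + 1 : ℕ) : ℝ) ^ ((1 : ℝ) / r) ≤
        A * (∑ p ∈ S, (p : ℝ) ^ 4) * ∏ _l : Fin d, ((2 * H + 1 : ℕ) : ℝ) := hmain
    rw [hprod, hN] at h1
    refine h1.trans ?_
    gcongr
  have hB' : (B.card : ℝ) ≤ A * (H : ℝ) ^ (5 * σ) * (2 * (H : ℝ) + 1) ^ ((d : ℝ) - 1 / r) := by
    rw [Real.rpow_sub hpos, ← mul_div_assoc, le_div_iff₀ (by positivity)]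
    exact hmain'
  refine hcard.trans (hB'.trans ?_)
  have h5 : (2 * (H : ℝ) + 1) ^ ((d : ℝ) - 1 / r) ≤ (3 * (H : ℝ)) ^ ((d : ℝ) - 1 / r) :=
    Real.rpow_le_rpow hpos.le (by linarith) (by linarith)
  rw [Real.mul_rpow (by norm_num) hH0.le] at h5
  calc A * (H : ℝ) ^ (5 * σ) * (2 * (H : ℝ) + 1) ^ ((d : ℝ) - 1 / r) ≤
        A * (H : ℝ) ^ (5 * σ) * (3 ^ ((d : ℝ) - 1 / r) * (H : ℝ) ^ ((d : ℝ) - 1 / r)) := by gcongr
    _ = A * 3 ^ ((d : ℝ) - 1 / r) * (H : ℝ) ^ ((d : ℝ) - 1 / r + 5 * σ) := by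
        rw [Real.rpow_add hH0]
        ring

/-- the triple `w = (A, x, y)` is marked, and the conclusion fails for some ordinary prime `5 ≤ p ≤ |w| ^ σ` -/
def Bad3 (σ : ℝ) (w : Fin 3 → ℤ) : Prop :=
  Marked (w 0, w 1, w 2) ∧ ∃ p : ℕ, p.Prime ∧ 5 ≤ p ∧ (p : ℝ) ≤ ‖(vec w : Fin 3 → ℝ)‖ ^ σ ∧
    ∃ _ : Fact p.Prime, IsOrdinary p (w 0) (Bf (w 0) (w 1) (w 2)) ∧ ¬ NonDeg p (w 0, w 1, w 2)

lemma bad3_count {σ : ℝ} (hσ : 0 ≤ σ) :
    ∃ C : ℝ, 0 ≤ C ∧ ∀ H : ℕ, 1 ≤ H → ({c : Fin 3 → ℤ | (∀ i, |c i| ≤ (H : ℤ)) ∧ Bad3 σ c}.ncard : ℝ) ≤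
      C * (H : ℝ) ^ (2 + 5 * σ) := by
  classical
  refine ⟨8 * 9, by positivity, fun H hH => ?_⟩
  have hH1 : (1 : ℝ) ≤ H := by exact_mod_cast hH
  have hH0 : (0 : ℝ) < H := by linarith
  set S : Finset ℕ := (Finset.Icc 5 ⌊(H : ℝ) ^ σ⌋₊).filter Nat.Prime with hS
  have hSp : ∀ p ∈ S, p.Prime ∧ 5 ≤ p := by
    intro p hp
    rw [hS, Finset.mem_filter, Finset.mem_Icc] at hp
    exact ⟨hp.2, hp.1.1⟩
  have hmain := MarkedIntegralPoints.result.1 S hSp (2 * H + 1) (2 * H + 1) (2 * H + 1) (2 * H + 1)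
    (-(H : ℤ)) (-(H : ℤ)) (-(H : ℤ)) le_rfl le_rfl le_rfl
  set I : Finset ℤ := Finset.Ico (-(H : ℤ)) (-(H : ℤ) + ((2 * H + 1 : ℕ) : ℤ)) with hI
  set B : Finset (ℤ × ℤ × ℤ) := (I ×ˢ I ×ˢ I).filter
    (fun v : ℤ × ℤ × ℤ => Marked v ∧ ∃ p ∈ S, ∃ _ : Fact p.Prime,
      IsOrdinary p v.1 (Bf v.1 v.2.1 v.2.2) ∧ ¬ NonDeg p v) with hB
  set f : (Fin 3 → ℤ) → ℤ × ℤ × ℤ := fun w => (w 0, w 1, w 2) with hf
  have hinj : Function.Injective f := by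
    intro a b hab
    simp only [hf, Prod.mk.injEq] at hab
    funext i
    fin_cases i
    · exact hab.1
    · exact hab.2.1
    · exact hab.2.2
  have hsub : f '' {c : Fin 3 → ℤ | (∀ i, |c i| ≤ (H : ℤ)) ∧ Bad3 σ c} ⊆ (B : Set (ℤ × ℤ × ℤ)) := by
    rintro _ ⟨c, ⟨hc, hm, p, hp, hp5, hpσ, hfa, ho, hn⟩, rfl⟩
    have hmem : ∀ i, c i ∈ I := by
      intro i
      have := abs_le.1 (hc i)
      rw [hI, Finset.mem_Ico]
      push_cast
      constructor <;> omega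
    rw [Finset.mem_coe, hB, Finset.mem_filter, Finset.mem_product, Finset.mem_product]
    refine ⟨⟨hmem 0, hmem 1, hmem 2⟩, hm, p, ?_, hfa, ho, hn⟩
    rw [hS, Finset.mem_filter, Finset.mem_Icc]
    refine ⟨⟨hp5, Nat.le_floor (hpσ.trans ?_)⟩, hp⟩
    refine Real.rpow_le_rpow (norm_nonneg _) ?_ hσ
    rw [pi_norm_le_iff_of_nonneg hH0.le]
    intro i
    have h1 : ((|c i| : ℤ) : ℝ) ≤ ((H : ℤ) : ℝ) := by exact_mod_cast hc i
    rw [vec, Real.norm_eq_abs, ← Int.cast_abs]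
    simpa using h1
  have hcard : ({c : Fin 3 → ℤ | (∀ i, |c i| ≤ (H : ℤ)) ∧ Bad3 σ c}.ncard : ℝ) ≤ (B.card : ℝ) := by
    have := Set.ncard_le_ncard hsub (Finset.finite_toSet B)
    rw [Set.ncard_coe_finset, Set.ncard_image_of_injective _ hinj] at this
    exact_mod_cast this
  have hsum := sum_pow_four_le hH1 hσ
  rw [← hS] at hsum
  have hpos : 0 < (2 * (H : ℝ) + 1) := by linarith
  have hmain' : (B.card : ℝ) * (2 * (H : ℝ) + 1) ≤ 8 * (∑ p ∈ S, (p : ℝ) ^ 4) * (2 * (H : ℝ) + 1) ^ 3 := by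
    have h1 : B.card * (2 * H + 1) ≤ 8 * (∑ p ∈ S, p ^ 4) * ((2 * H + 1) * (2 * H + 1) * (2 * H + 1)) := hmain
    have h2 : ((B.card * (2 * H + 1) : ℕ) : ℝ) ≤
        ((8 * (∑ p ∈ S, p ^ 4) * ((2 * H + 1) * (2 * H + 1) * (2 * H + 1)) : ℕ) : ℝ) := by exact_mod_cast h1
    push_cast at h2
    calc (B.card : ℝ) * (2 * (H : ℝ) + 1) ≤ _ := h2
      _ = _ := by ring
  have hB' : (B.card : ℝ) ≤ 8 * (H : ℝ) ^ (5 * σ) * (2 * (H : ℝ) + 1) ^ 2 := by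
    have h3 : (B.card : ℝ) * (2 * (H : ℝ) + 1) ≤ (8 * (H : ℝ) ^ (5 * σ) * (2 * (H : ℝ) + 1) ^ 2) * (2 * (H : ℝ) + 1) := by
      refine hmain'.trans ?_
      calc 8 * (∑ p ∈ S, (p : ℝ) ^ 4) * (2 * (H : ℝ) + 1) ^ 3 ≤ 8 * (H : ℝ) ^ (5 * σ) * (2 * (H : ℝ) + 1) ^ 3 := by gcongr
        _ = _ := by ring
    exact le_of_mul_le_mul_right h3 hpos
  refine hcard.trans (hB'.trans ?_)
  have h5 : (2 * (H : ℝ) + 1) ^ 2 ≤ 9 * (H : ℝ) ^ 2 := by nlinarith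
  calc 8 * (H : ℝ) ^ (5 * σ) * (2 * (H : ℝ) + 1) ^ 2 ≤ 8 * (H : ℝ) ^ (5 * σ) * (9 * (H : ℝ) ^ 2) := by gcongr
    _ = 8 * 9 * (H : ℝ) ^ (2 + 5 * σ) := by
        rw [Real.rpow_add hH0]
        have : (H : ℝ) ^ (2 : ℝ) = (H : ℝ) ^ 2 := by rw [← Real.rpow_natCast]; norm_num
        rw [this]
        ring

/-- **Theorem.** Let `F` be a family with `d ≥ 1` parameters and `r ≥ 1` sections and nondegenerate height pairing, `σ ≥ 0`,
`v ≥ 1` a sequence of exponent of convergence at most `τ ≥ 0`, and `θ < 1`. There is a set `E ⊆ ℝ^d` of Hausdorff dimension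
at most `(d - 1/r + 5 σ + τ) / (1 - θ)`, of Lebesgue measure zero if `θ < (1/r - 5 σ - τ) / d`, such that for each `α`
outside `E` and all large `n`: for ALL integral vectors `w` with `‖w - v_n • α‖ ≤ v_n ^ θ` which are marked, and ALL primes
`5 ≤ p ≤ ‖w‖ ^ σ` of good ordinary reduction of the member at `w`, `F.NonDeg w p` holds: the `p`-adic regulator of the
points `P 0 1, …, P 0 r` is not zero, and Schneider's conjecture at `p` holds if the rank is `r`. The height pairing of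
`lineFamily` (`r = 2`, `d = 4`) has determinant `3`. The same, with `d = 3` and `r = 1`, for the marked triples
`w = (A, x, y)` (the integral point `(x, y)` on `y² = x³ + A x + B`, nonsingular modulo all primes): `NonDeg p (A, x, y)`
holds, that is the `p`-adic height of the point is not zero, and Schneider's conjecture at `p` holds if the rank is one. The
sequences `x ^ n` and `(n + 1) ^ κ` have exponent of convergence at most `0` and `1 / κ`. -/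
theorem result :
    (∀ (d r : ℕ) (F : Family d r), 0 < d → 0 < r → F.K.det ≠ 0 → ∀ σ : ℝ, 0 ≤ σ →
      ∀ (v : ℕ → ℝ) (τ θ : ℝ), (∀ n, 1 ≤ v n) → 0 ≤ τ → ExpLe v τ → θ < 1 →
        ∃ E : Set (Fin d → ℝ), dimH E ≤ ENNReal.ofReal (((d : ℝ) - 1 / r + 5 * σ + τ) / (1 - θ)) ∧
          (θ < (1 / r - 5 * σ - τ) / d → volume E = 0) ∧
          ∀ α : Fin d → ℝ, α ∉ E → ∃ n₀ : ℕ, ∀ n : ℕ, n₀ ≤ n →
            ∀ w : Fin d → ℤ, ‖vec w - v n • α‖ ≤ (v n) ^ θ → F.Marked w →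
              ∀ (p : ℕ) [Fact p.Prime], 5 ≤ p → (p : ℝ) ≤ ‖(vec w : Fin d → ℝ)‖ ^ σ →
                IsOrdinaryW p (F.curve w) → F.NonDeg w p) ∧
    lineFamily.K.det = 3 ∧
    (∀ σ : ℝ, 0 ≤ σ → ∀ (v : ℕ → ℝ) (τ θ : ℝ), (∀ n, 1 ≤ v n) → 0 ≤ τ → ExpLe v τ → θ < 1 →
        ∃ E : Set (Fin 3 → ℝ), dimH E ≤ ENNReal.ofReal ((2 + 5 * σ + τ) / (1 - θ)) ∧
          (θ < (1 - 5 * σ - τ) / 3 → volume E = 0) ∧
          ∀ α : Fin 3 → ℝ, α ∉ E → ∃ n₀ : ℕ, ∀ n : ℕ, n₀ ≤ n →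
            ∀ w : Fin 3 → ℤ, ‖vec w - v n • α‖ ≤ (v n) ^ θ → Marked (w 0, w 1, w 2) →
              ∀ (p : ℕ) [Fact p.Prime], 5 ≤ p → (p : ℝ) ≤ ‖(vec w : Fin 3 → ℝ)‖ ^ σ →
                IsOrdinary p (w 0) (Bf (w 0) (w 1) (w 2)) → NonDeg p (w 0, w 1, w 2)) ∧
    (∀ x : ℝ, 1 < x → ExpLe (fun n : ℕ => x ^ n) 0) ∧
    (∀ κ : ℝ, 0 < κ → ExpLe (fun n : ℕ => ((n : ℝ) + 1) ^ κ) (1 / κ)) := by
  refine ⟨?_, RegulatorsInFamilies.result.2.1, ?_, fun x hx => expLe_geom x hx, fun κ hκ => expLe_pow κ hκ⟩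
  swap
  · intro σ hσ v τ θ hv hτ hE hθ1
    obtain ⟨C, hC0, hC⟩ := bad3_count hσ
    have hw : WindowsFree (Bad3 σ) (2 + 5 * σ) := by
      refine windows_of_box (by linarith) fun ε hε => ⟨C, fun H hH => ?_⟩
      have hH' : (1 : ℝ) ≤ H := by exact_mod_cast hH
      refine (hC H hH).trans ?_
      apply mul_le_mul_of_nonneg_left _ hC0
      exact Real.rpow_le_rpow_of_exponent_le hH' (by linarith)
    obtain ⟨E, hE1, hE2, hE3⟩ := hw v τ θ hv hτ hE hθ1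
    refine ⟨E, hE1, ?_, ?_⟩
    · intro hθ
      apply hE2
      rw [Fintype.card_fin]
      push_cast
      linarith
    · intro α hα
      obtain ⟨n₀, hn⟩ := hE3 α hα
      refine ⟨n₀, fun n hn1 w hw hm p hp hp5 hpσ ho => ?_⟩
      by_contra hcon
      exact hn n hn1 w hw ⟨hm, p, hp.out, hp5, hpσ, hp, ho, hcon⟩
  intro d r F hd hr hK σ hσ v τ θ hv hτ hE hθ1
  have hd1 : (1 : ℝ) ≤ d := by exact_mod_cast hd
  have hr1 : (1 : ℝ) ≤ r := by exact_mod_cast hr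
  have hrinv : (1 : ℝ) / r ≤ 1 := by rw [div_le_one (by linarith)]; exact hr1
  have hne : Nonempty (Fin d) := ⟨⟨0, hd⟩⟩
  obtain ⟨C, hC0, hC⟩ := bad_count F hd hr hK hσ
  have hw : WindowsFree (Bad F σ) ((d : ℝ) - 1 / r + 5 * σ) := by
    refine windows_of_box (by linarith) fun ε hε => ⟨C, fun H hH => ?_⟩
    have hH' : (1 : ℝ) ≤ H := by exact_mod_cast hH
    refine (hC H hH).trans ?_
    apply mul_le_mul_of_nonneg_left _ hC0
    exact Real.rpow_le_rpow_of_exponent_le hH' (by linarith)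
  obtain ⟨E, hE1, hE2, hE3⟩ := hw v τ θ hv hτ hE hθ1
  refine ⟨E, hE1, ?_, ?_⟩
  · intro hθ
    apply hE2
    rw [Fintype.card_fin]
    have hd0 : (0 : ℝ) < d := by linarith
    rw [lt_div_iff₀ hd0] at hθ
    have h1 : 1 - ((d : ℝ) - 1 / r + 5 * σ + τ) / d = (1 / r - 5 * σ - τ) / d := by
      field_simp
      ring
    rw [h1, lt_div_iff₀ hd0]
    exact hθ
  · intro α hα
    obtain ⟨n₀, hn⟩ := hE3 α hα
    refine ⟨n₀, fun n hn1 w hw hm p hp hp5 hpσ ho => ?_⟩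
    by_contra hcon
    exact hn n hn1 w hw ⟨hm, p, hp.out, hp5, hpσ, hp, ho, hcon⟩

end Pool.Agent.Results.MP_3550b5_nt.FamiliesInWindows
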