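import Pool.Agent.Results.MP_3550b5_nt.FamiliesInWindows
import Pool.Agent.V1172.PW.Eng

/-!
# Schneider's conjecture in shrinking residue classes of parameters, for all primes up to a power

Let `F_0, F_1, …` be families of elliptic curves over `ℤ[t₁, …, t_d]` with `r ≥ 1` sections whose height pairings are
nondegenerate (starting file `RegulatorsInFamilies`), `σ ≥ 0`, `l` a prime and `ρ > 0`. For all vectors `α` of `l`-adic
integers outside a set of Hausdorff dimension at most `(d - 1/r + 5 σ) / ρ` (the space `ℤ_l ^ d` has dimension `d`, so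
`ρ < 1` is allowed), every `j` and all large `T`, the following holds for ALL marked members `w` of the family `F_j` with
`|w_i| ≤ T` and `|w - α|_l ≤ T ^ (-ρ)`, that is, in the residue class of `α` modulo `l ^ f ≥ T ^ ρ`, and for ALL primes
`5 ≤ p ≤ |w| ^ σ` of good ordinary reduction: the `p`-adic regulator of the `r` points is not zero, and Schneider's
conjecture at `p` holds if the rank is `r`. An example is the family `lineFamily` of all curves
`y² + a₁ x y + a₃ y = x (x - m) (x - n)`, with `r = 2`, `d = 4`. The same is proved, with `r = 1` and `d = 3`, for all marked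
integral points `(x, y)` on all curves `y² = x³ + A x + B` (starting file `MarkedIntegralPoints`), `w = (A, x, y)`.
-/

set_option autoImplicit false

open MeasureTheory

namespace Pool.Agent.Results.MP_3550b5_nt.ResidueClassesOfParameters

open Pool.Agent.Y732 Pool.Agent.V35.WB

/-- **Theorem.** (1) Let `F_0, F_1, …` be families with `d ≥ 1` parameters and `r ≥ 1` sections and nondegenerate height
pairings, `σ ≥ 0`, `l` a prime and `ρ > 0`. There is a set `E` of vectors of `l`-adic integers, of Hausdorff dimension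
at most `(d - 1/r + 5 σ) / ρ`, such that for each `α` outside `E`, each `j` and all large `T`: for ALL integral vectors `w`
with `|w_i| ≤ T` and `|w_i - α_i|_l ≤ T ^ (-ρ)` which are marked, and ALL primes `5 ≤ p ≤ ‖w‖ ^ σ` of good ordinary
reduction of the member at `w`, `NonDeg w p` holds: the `p`-adic regulator of the points is not zero, and Schneider's
conjecture at `p` holds if the rank is `r`. (2) The height pairing of `lineFamily` (`r = 2`, `d = 4`) has determinant `3`.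
(3) The same, with `d = 3` and `r = 1`, for the marked triples `w = (A, x, y)` (the integral point `(x, y)` on
`y² = x³ + A x + B`, nonsingular modulo all primes). -/
theorem result :
    (∀ (d r : ℕ) (F : ℕ → Family d r), 0 < d → 0 < r → (∀ j, (F j).K.det ≠ 0) → ∀ σ : ℝ, 0 ≤ σ →
      ∀ (l : ℕ) [Fact l.Prime] (ρ : ℝ), 0 < ρ →
        ∃ E : Set (Fin d → ℤ_[l]), dimH E ≤ ENNReal.ofReal (((d : ℝ) - 1 / r + 5 * σ) / ρ) ∧
          ∀ α : Fin d → ℤ_[l], α ∉ E → ∀ j : ℕ, ∃ T₀ : ℝ, ∀ T : ℝ, T₀ ≤ T →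
            ∀ w : Fin d → ℤ, (∀ i, |(w i : ℝ)| ≤ T ∧ ‖(w i : ℤ_[l]) - α i‖ ≤ T ^ (-ρ)) → (F j).Marked w →
              ∀ (p : ℕ) [Fact p.Prime], 5 ≤ p → (p : ℝ) ≤ ‖(vec w : Fin d → ℝ)‖ ^ σ →
                IsOrdinaryW p ((F j).curve w) → (F j).NonDeg w p) ∧
    lineFamily.K.det = 3 ∧
    (∀ σ : ℝ, 0 ≤ σ → ∀ (l : ℕ) [Fact l.Prime] (ρ : ℝ), 0 < ρ →
        ∃ E : Set (Fin 3 → ℤ_[l]), dimH E ≤ ENNReal.ofReal ((2 + 5 * σ) / ρ) ∧
          ∀ α : Fin 3 → ℤ_[l], α ∉ E → ∃ T₀ : ℝ, ∀ T : ℝ, T₀ ≤ T →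
            ∀ w : Fin 3 → ℤ, (∀ i, |(w i : ℝ)| ≤ T ∧ ‖(w i : ℤ_[l]) - α i‖ ≤ T ^ (-ρ)) → Marked (w 0, w 1, w 2) →
              ∀ (p : ℕ) [Fact p.Prime], 5 ≤ p → (p : ℝ) ≤ ‖(vec w : Fin 3 → ℝ)‖ ^ σ →
                IsOrdinary p (w 0) (Bf (w 0) (w 1) (w 2)) → NonDeg p (w 0, w 1, w 2)) := by
  refine ⟨?_, RegulatorsInFamilies.result.2.1, ?_⟩
  swap
  · intro σ hσ l hl ρ hρ
    obtain ⟨C, hC0, hC⟩ := FamiliesInWindows.bad3_count hσ
    obtain ⟨E, hE1, hE2⟩ := Pool.Agent.V1172.PW.boxes l (k := 3) (ι := Unit) (fun _ => FamiliesInWindows.Bad3 σ)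
      (s := 2 + 5 * σ) (by linarith) (fun _ ε hε => ⟨C, fun H hH => by
        have hH' : (1 : ℝ) ≤ H := by exact_mod_cast hH
        refine (hC H hH).trans ?_
        apply mul_le_mul_of_nonneg_left _ hC0
        exact Real.rpow_le_rpow_of_exponent_le hH' (by linarith)⟩) hρ
    refine ⟨E, hE1, fun α hα => ?_⟩
    obtain ⟨T₀, hT⟩ := hE2 α hα ()
    refine ⟨T₀, fun T hT1 w hw hm p hp hp5 hpσ ho => ?_⟩
    by_contra hcon
    exact hT T hT1 w hw ⟨hm, p, hp.out, hp5, hpσ, hp, ho, hcon⟩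
  intro d r F hd hr hK σ hσ l hl ρ hρ
  have hd1 : (1 : ℝ) ≤ d := by exact_mod_cast hd
  have hr1 : (1 : ℝ) ≤ r := by exact_mod_cast hr
  have hrinv : (1 : ℝ) / r ≤ 1 := by rw [div_le_one (by linarith)]; exact hr1
  obtain ⟨E, hE1, hE2⟩ := Pool.Agent.V1172.PW.boxes l (k := d) (fun j => FamiliesInWindows.Bad (F j) σ)
    (s := (d : ℝ) - 1 / r + 5 * σ) (by linarith) (fun j ε hε => by
      obtain ⟨C, hC0, hC⟩ := FamiliesInWindows.bad_count (F j) hd hr (hK j) hσ
      refine ⟨C, fun H hH => ?_⟩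
      have hH' : (1 : ℝ) ≤ H := by exact_mod_cast hH
      refine (hC H hH).trans ?_
      apply mul_le_mul_of_nonneg_left _ hC0
      exact Real.rpow_le_rpow_of_exponent_le hH' (by linarith)) hρ
  refine ⟨E, hE1, fun α hα j => ?_⟩
  obtain ⟨T₀, hT⟩ := hE2 α hα j
  refine ⟨T₀, fun T hT1 w hw hm p hp hp5 hpσ ho => ?_⟩
  by_contra hcon
  exact hT T hT1 w hw ⟨hm, p, hp.out, hp5, hpσ, hp, ho, hcon⟩

end Pool.Agent.Results.MP_3550b5_nt.ResidueClassesOfParameters
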